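import Pool.Agent.Y258.SX.XDefs

set_option autoImplicit false

/-!
# Uniform power saving: statements of the jobs
-/

namespace Pool.Agent.Y258

open Finset Pool.Agent.H470D4
open Pool.Agent.H935R2.PS (La uu nn dl mx Suit)

/-! ### number theory, vectors with full support -/

/-- (X1) A1 with separate powers of the logarithm -/
def St_X1 : Prop := ∀ κ : ℕ, 2 ≤ κ → ∃ C : ℕ, ∀ (q : ℕ) [Fact q.Prime], Suit q → C ≤ q →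
  ∀ (ι : Type) [Fintype ι] [DecidableEq ι], Fintype.card ι = κ → ∀ b b' : ι → ℕ,
  ((NP (q := q) b b').card : ℝ) ≤
    C * (La q : ℝ) ^ (if κ = 2 then 7 else 0) *
      ((2:ℝ) ^ (∑ a, (b a + b' a)) / (q:ℝ) ^ (κ - 1)) +
    C * (La q : ℝ) ^ C *
      (√((2:ℝ) ^ (∑ a, (b a + b' a))) * ∑ a, √((2:ℝ) ^ (b a + b' a)) / q)

open Classical in
/-- (X2) A2 with explicit threshold -/
def St_X2 : Prop := ∀ κ : ℕ, 2 ≤ κ → ∃ C : ℕ, ∀ (q : ℕ) [Fact q.Prime], Suit q → C ≤ q →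
  ∀ (ι : Type) [Fintype ι] [DecidableEq ι], Fintype.card ι = κ → ∀ D K0 : ℕ, 1 ≤ D → D < κ →
  max 11 (κ + 2) * uu q ≤ K0 →
  ∑ h ∈ (univ : Finset (ι → ZMod q)).filter (fun h => (∀ a, h a ≠ 0) ∧ ¬ BdP D K0 h ∧
    BdL D K0 h), wt h ≤ C * (La q : ℝ) ^ (κ - 2) * (uu q : ℝ) ^ 2

open Classical in
/-- (X3) A3 with explicit threshold -/
def St_X3 : Prop := ∀ κ : ℕ, 2 ≤ κ → ∃ C : ℕ, ∀ (q : ℕ) [Fact q.Prime], Suit q → C ≤ q →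
  ∀ (ι : Type) [Fintype ι] [DecidableEq ι], Fintype.card ι = κ → ∀ D K0 : ℕ, 1 ≤ D → D < κ →
  max 11 (κ + 2) * uu q ≤ K0 →
  ∑ h ∈ (univ : Finset (ι → ZMod q)).filter (fun h => (∀ a, h a ≠ 0) ∧ ¬ BdL D K0 h),
      wt h * min 1 (XW D K0 h) ≤ C * (La q : ℝ) ^ (κ - 1)

open Classical in
/-- (X4) the lines without short vector and with large total weight -/
def St_X4 : Prop := ∀ κ : ℕ, 2 ≤ κ → ∃ C : ℕ, ∀ (q : ℕ) [Fact q.Prime], Suit q → C ≤ q →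
  ∀ (ι : Type) [Fintype ι] [DecidableEq ι], Fintype.card ι = κ → ∀ D K0 : ℕ, 1 ≤ D → D < κ →
  max 11 (κ + 2) * uu q ≤ K0 →
  ∑ h ∈ (univ : Finset (ι → ZMod q)).filter (fun h => (∀ a, h a ≠ 0) ∧ ¬ BdL D K0 h ∧
    2 ^ (κ + 3) < XW D K0 h), wt h ≤ C * (La q : ℝ) ^ (κ - 2) * (uu q : ℝ) ^ 2

open Classical in
/-- (X5) A3 with an additional factor `log q` inside the minimum -/
def St_X5 : Prop := ∀ κ : ℕ, 2 ≤ κ → ∀ e : ℕ, ∃ C : ℕ, ∀ (q : ℕ) [Fact q.Prime], Suit q → C ≤ q →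
  ∀ (ι : Type) [Fintype ι] [DecidableEq ι], Fintype.card ι = κ → ∀ D K0 : ℕ, 1 ≤ D → D < κ →
  (max 11 (κ + 2) + 1) * uu q + C ≤ K0 →
  ∑ h ∈ (univ : Finset (ι → ZMod q)).filter (fun h => (∀ a, h a ≠ 0) ∧ ¬ BdL D K0 h),
      wt h * min 1 (e * La q * XW D K0 h) ≤ C * (La q : ℝ) ^ (κ - 1) * uu q

/-! ### number theory, relations -/

open Classical in
/-- (X7) the direct bias -/
def St_X7 : Prop := ∀ n : ℕ, ∃ C : ℕ, ∀ (q : ℕ) [Fact q.Prime], Suit q → C ≤ q →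
  ∀ (D K0 : ℕ) (t : Option (Fin (n + 2)) → ℕ) (φ : Option (Fin (n + 2)) → ℝ), 1 ≤ D → D ≤ n + 2 →
  (n + 11) * uu q ≤ K0 → K0 ≤ La q → (∀ o, t o < q) → (∀ o, 0 ≤ φ o) → (∀ o, φ o ≤ 1) →
  ‖∑ H ∈ (univ : Finset (Option (Fin (n + 2)) → ZMod q)).filter (fun H => H none ≠ 0 ∧
      BX (2 ^ (n + 6)) D K0 H), ∏ o, Fc (t o) (φ o) (H o)‖ ≤
    C * (La q : ℝ) ^ (n + 1) * (uu q : ℝ) ^ 2

open Classical in
/-- (X6) the number of forbidden lines -/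
def St_X6 : Prop := ∀ n : ℕ, ∃ C : ℕ, ∀ (q : ℕ) [Fact q.Prime], Suit q → C ≤ q →
  ∀ (D K0 : ℕ), 1 ≤ D → D ≤ n + 2 → (n + 11) * uu q ≤ K0 → K0 ≤ La q →
  (((univ : Finset (Option (Fin (n + 2)) → ZMod q)).filter (fun H => H none = 1 ∧
      BX (2 ^ (n + 6)) D K0 H)).card : ℝ) ≤
    C * (La q : ℝ) ^ (n + 2) * 2 ^ (D * La q) / 2 ^ K0

open Classical in
/-- (X8) the neighbour sum with one vanishing coordinate -/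
def St_X8 : Prop := ∀ n e : ℕ, ∃ C : ℕ, ∀ (q : ℕ) [Fact q.Prime], Suit q → C ≤ q →
  ∀ (D K0 : ℕ) (a0 : Fin (n + 2)), 1 ≤ D → D ≤ n + 2 → (n + 12) * uu q + C ≤ K0 → K0 ≤ La q →
  ∑ H ∈ (univ : Finset (Option (Fin (n + 2)) → ZMod q)).filter (fun H => H none ≠ 0 ∧
      H (some a0) = 0 ∧ ¬ BdL D K0 H), wm H * min 1 (e * La q * XW D K0 H) ≤
    C * (La q : ℝ) ^ (n + 1) * uu q

open Classical in
/-- (X9) the second moment sum -/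
def St_X9 : Prop := ∀ n : ℕ, ∃ C : ℕ, ∀ (q : ℕ) [Fact q.Prime], Suit q → C ≤ q →
  ∀ (D K0 : ℕ), 1 ≤ D → D ≤ n + 2 → (n + 11) * uu q ≤ K0 → K0 ≤ La q →
  ∑ H ∈ (univ : Finset (Option (Fin (n + 2)) → ZMod q)).filter (fun H => H none ≠ 0 ∧
      ¬ BdL D K0 H), wm H * min 1 (XW D K0 H) ≤ C * (La q : ℝ) ^ (n + 2)

/-! ### the random path -/

/-- (XQ) expected contribution of the accidental relations -/
def St_XQ : Prop := ∀ n : ℕ, ∃ C : ℕ, ∀ (q : ℕ) [Fact q.Prime], 8 ≤ q →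
  ∀ (M B : ℕ) (c : Flg q M B n), IsFlags c →
  ∀ Al : ℕ → Pth q B → Finset (Blk q B), (∀ j ω, q ^ B ≤ 2 * (Al j ω).card) →
  ∀ (r : ℕ) (l l' : Fin (n+2) → ℕ), ∑ a, mxv l l' a + (n + 2) ≤ M * B →
  ∑ a, mxv l l' a + r ≤ M * B → dm M B l' r ≤ n + 2 → ∀ ω₀,
  EE Al 0 (r * M) (fun ω => QQ c ω r l l') ω₀ ≤ C * (La q : ℝ) ^ (2 * n + 6)

/-- (X10) density of the allowed sets -/
def St_X10 : Prop := ∀ n : ℕ, ∃ C : ℕ, ∀ (q : ℕ) [Fact q.Prime], Suit q → C ≤ q →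
  ∀ (M B : ℕ) (c : Flg q M B n), IsFlags c → 0 < M → ∀ K0 K7 : ℕ, n + 2 ≤ K7 →
  (n + 11) * uu q ≤ K0 → K0 ≤ La q →
  C * (B * (M * B + 1) ^ n * La q ^ (n + 2)) ≤ 2 ^ K0 →
  ∀ (j : ℕ) (ω : Pth q B), q ^ B ≤ 2 * (AlX c K0 K7 j ω).card

/-- (X11) first order bias -/
def St_X11 : Prop := ∀ n : ℕ, ∃ C : ℕ, ∀ (q : ℕ) [Fact q.Prime], Suit q → C ≤ q →
  ∀ (M B : ℕ) (c : Flg q M B n), IsFlags c → ∀ K0 K7 : ℕ, n + 2 ≤ K7 →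
  (n + 12) * uu q + C ≤ K0 → K0 ≤ La q →
  ∀ (ω : Pth q B) (r : ℕ) (b : Fin M) (l : Fin (n+2) → ℕ), l ∈ IL M B n K7 r b → Exc c ω r →
  ∀ (X : Fin (n+2) → ℕ → ZMod q) (Y t : ℕ → ZMod q),
  |∑ z : Blk q B, TT c (cD M B X Y) t (Function.update ω (r * M + (M - 1 - b)) z) r l *
      ii (Gx c K0 (Function.update ω (r * M + (M - 1 - b)) z) l r)| ≤
    (q:ℝ) ^ B * (C * (La q : ℝ) ^ (n + 1) * (uu q : ℝ) ^ 2 + C * QQ c ω r l l / 2 ^ K0 +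
      ii (NCv c X Y t ω r b l) * (C * (La q : ℝ) ^ (n + 3)))

/-- (X12) second order bias, neighbours -/
def St_X12 : Prop := ∀ n : ℕ, ∃ C : ℕ, ∀ (q : ℕ) [Fact q.Prime], Suit q → C ≤ q →
  ∀ (M B : ℕ) (c : Flg q M B n), IsFlags c → ∀ K0 K7 : ℕ, 2 * n + 4 ≤ K7 →
  (n + 12) * uu q + C ≤ K0 → K0 ≤ La q →
  ∀ (ω : Pth q B) (r : ℕ) (b : Fin M) (l l' : Fin (n+2) → ℕ), l ∈ IL M B n K7 r b →
  l' ∈ IL M B n K7 r b → l ≠ l' → 1 ≤ dm M B (mxv l l') r → Exc c ω r →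
  ∑ z : Blk q B, RR c (Function.update ω (r * M + (M - 1 - b)) z) l r *
      (ii (Gx c K0 (Function.update ω (r * M + (M - 1 - b)) z) l r) *
       ii (¬ Gx c K0 (Function.update ω (r * M + (M - 1 - b)) z) l' r)) ≤
    (q:ℝ) ^ B * (C * (La q : ℝ) ^ (n + 1) * (uu q : ℝ) ^ 2 + C * QQ c ω r l l' / 2 ^ K0)

/-- (X13) second order bias, distant levels -/
def St_X13 : Prop := ∀ n : ℕ, ∃ C : ℕ, ∀ (q : ℕ) [Fact q.Prime], Suit q → C ≤ q →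
  ∀ (M B : ℕ) (c : Flg q M B n), IsFlags c → ∀ K0 K7 : ℕ, n + 2 ≤ K7 →
  (n + 12) * uu q + C ≤ K0 → K0 ≤ La q →
  ∀ (ω : Pth q B) (r : ℕ) (b : Fin M) (l l' : Fin (n+2) → ℕ), l ∈ IL M B n K7 r b →
  l' ∈ IL M B n K7 r b → dm M B (mxv l l') r = 0 → Exc c ω r → PairG c K7 ω r →
  ∑ z : Blk q B, RR c (Function.update ω (r * M + (M - 1 - b)) z) l r *
       ii (¬ Gx c K0 (Function.update ω (r * M + (M - 1 - b)) z) l' r) ≤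
    (q:ℝ) ^ B * (C * (La q : ℝ) ^ (2 * n + 5) / 2 ^ K0)

/-- (X14) second moment -/
def St_X14 : Prop := ∀ n : ℕ, ∃ C : ℕ, ∀ (q : ℕ) [Fact q.Prime], Suit q → C ≤ q →
  ∀ (M B : ℕ) (c : Flg q M B n), IsFlags c → ∀ K0 K7 : ℕ, 2 * n + 4 ≤ K7 →
  (n + 12) * uu q + C ≤ K0 → K0 ≤ La q →
  ∀ (ω : Pth q B) (r : ℕ) (b : Fin M), Exc c ω r → PairG c K7 ω r →
  ∑ z : Blk q B, (∑ l ∈ IL M B n K7 r b, RR c (Function.update ω (r * M + (M - 1 - b)) z) l r *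
       ii (Gx c K0 (Function.update ω (r * M + (M - 1 - b)) z) l r)) ^ 2 ≤
    (q:ℝ) ^ B * (C * ((La q : ℝ) ^ (2 * n + 6) * ((IL M B n K7 r b).card : ℝ) ^ 2 +
      (La q : ℝ) ^ (n + 2) * 2 ^ K0 * (IL M B n K7 r b).card +
      ∑ l ∈ IL M B n K7 r b, QQ c ω r l l))

/-- (X18) a random row process, parameters still free -/
def St_X18 : Prop := ∀ n : ℕ, ∃ C : ℕ, ∀ (q : ℕ) [Fact q.Prime], Suit q → C ≤ q →
  ∀ (M B : ℕ) (c : Flg q M B n), IsFlags c → 0 < M → 0 < B → ∀ K0 : ℕ,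
  (n + 12) * uu q + C ≤ K0 →
  K0 ≤ La q → C * (B * (M * B + 1) ^ n * La q ^ (n + 4)) ≤ 2 ^ K0 →
  C * (M * B + 1) ^ (2 * n + 6) ≤ q → ∀ θ : ℝ, 0 < θ →
  ∃ ω : Pth q B, (∀ r ≤ M * B, Exc c ω r) ∧
    ∀ (X : Fin (n+2) → ℕ → ZMod q) (Y : ℕ → ZMod q), (∀ a j, M * B ≤ j → X a j = 0) →
      (∀ j, M * B ≤ j → Y j = 0) →
      |∑ r ∈ range (M * B), XX c (cD M B X Y) ω r| ≤
        C * (((M * B : ℕ) : ℝ) ^ (n + 2) * (La q : ℝ) ^ (n + 1) * (uu q : ℝ) ^ 2 +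
          ((M * B : ℕ) : ℝ) ^ (n + 1) * M * (La q : ℝ) ^ (n + 3) +
          θ * (((M * B : ℕ) : ℝ) * M * ((La q : ℝ) ^ (2 * n + 6) *
            ((B : ℝ) ^ 2 * ((M * B : ℕ) : ℝ) ^ (2 * n)) +
            (La q : ℝ) ^ (n + 2) * (B * ((M * B : ℕ) : ℝ) ^ n * 2 ^ K0)) + 1) +
          ((M * B : ℕ) : ℝ) * (La q : ℝ) / θ)

end Pool.Agent.Y258
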