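import Pool.Agent.Y258.SD.Core6
import Pool.Agent.Y258.SX.XStmts

set_option autoImplicit false
set_option linter.unusedSectionVars false

/-!
# The increments: mean and measurability (second version)
-/

namespace Pool.Agent.Y258.X

open Finset Pool.Agent.H470D4 Pool.Agent.Y258
open Pool.Agent.H935R2.PS (La uu nn dl mx Suit)

section incr
variable {q M B n : ℕ} [Fact q.Prime]

lemma QQ_nonneg (c : Flg q M B n) (ω : Pth q B) (r : ℕ) (l l' : Fin (n+2) → ℕ) :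
    0 ≤ QQ c ω r l l' := by
  unfold QQ
  refine sum_nonneg fun H _ => sum_nonneg fun H' _ => mul_nonneg (ii_nonneg _) ?_
  have := wm_nonneg H
  have := wm_nonneg H'
  positivity

lemma QQ_agr (c : Flg q M B n) {r : ℕ} {ω ω' : Pth q B} (h : Agr (r * M) ω ω')
    (l l' : Fin (n+2) → ℕ) : QQ c ω r l l' = QQ c ω' r l l' := by
  unfold QQ
  simp only [OR_agr c h]

lemma Gx_agr {c : Flg q M B n} (hc : IsFlags c) {K0 K7 r : ℕ} {b : ℕ} {ω ω' : Pth q B}
    {l : Fin (n+2) → ℕ} (hl : l ∈ IL M B n K7 r b)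
    (h : Agr (r * M + (M - b)) ω ω') : Gx c K0 ω l r ↔ Gx c K0 ω' l r :=
  forall_congr' fun H => forall_congr' fun _ => by rw [Rel_agr hc hl h H]

/-- good past at time `j` -/
def GG (c : Flg q M B n) (K7 : ℕ) (j : ℕ) (ω : Pth q B) : Prop :=
  n + 3 ≤ j / M ∧ Exc c ω (j / M) ∧ PairG c K7 ω (j / M)

/-- the increment without the indicator of the past -/
noncomputable def Y0 (c : Flg q M B n) (K0 K7 : ℕ) (X : Fin (n+2) → ℕ → ZMod q) (Y t : ℕ → ZMod q)
    (j : ℕ) (ω : Pth q B) : ℝ :=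
  ∑ l ∈ IL M B n K7 (j / M) (M - 1 - j % M), TT c (cD M B X Y) t ω (j / M) l *
    ii (Gx c K0 ω l (j / M))

/-- the increment -/
noncomputable def Yj (c : Flg q M B n) (K0 K7 : ℕ) (X : Fin (n+2) → ℕ → ZMod q) (Y t : ℕ → ZMod q)
    (j : ℕ) (ω : Pth q B) : ℝ := ii (GG c K7 j ω) * Y0 c K0 K7 X Y t j ω

/-- the majorant of the increment -/
noncomputable def Xij (c : Flg q M B n) (K0 K7 : ℕ) (j : ℕ) (ω : Pth q B) : ℝ :=
  ∑ l ∈ IL M B n K7 (j / M) (M - 1 - j % M), RR c ω l (j / M) * ii (Gx c K0 ω l (j / M))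

/-- one term of the bias -/
noncomputable def bt (c : Flg q M B n) (K0 : ℕ) (C11 C12 C13 : ℕ) (ω : Pth q B) (r : ℕ)
    (l l' : Fin (n+2) → ℕ) : ℝ :=
  if 1 ≤ dm M B (mxv l l') r then C12 * (La q : ℝ) ^ (n + 1) * (uu q : ℝ) ^ 2 +
      (C11 + C12) * QQ c ω r l l' / 2 ^ K0 else
    C13 * (La q : ℝ) ^ (2 * n + 5) / 2 ^ K0

/-- the bias -/
noncomputable def bb (c : Flg q M B n) (K0 K7 : ℕ) (C11 C12 C13 : ℕ)
    (X : Fin (n+2) → ℕ → ZMod q) (Y t : ℕ → ZMod q) (r β : ℕ) (ω : Pth q B) : ℝ :=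
  ∑ l ∈ IL M B n K7 r β, (C11 * (La q : ℝ) ^ (n + 1) * (uu q : ℝ) ^ 2 +
      ii (NCv c X Y t ω r β l) * (C11 * (La q : ℝ) ^ (n + 3)) +
      ∑ l' ∈ IL M B n K7 r β, bt c K0 C11 C12 C13 ω r l l')

lemma bt_nonneg (c : Flg q M B n) (K0 : ℕ) (C11 C12 C13 : ℕ) (ω : Pth q B) (r : ℕ)
    (l l' : Fin (n+2) → ℕ) : 0 ≤ bt c K0 C11 C12 C13 ω r l l' := by
  unfold bt
  have := QQ_nonneg c ω r l l'
  split_ifs <;> positivity

lemma bb_nonneg (c : Flg q M B n) (K0 K7 : ℕ) (C11 C12 C13 : ℕ)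
    (X : Fin (n+2) → ℕ → ZMod q) (Y t : ℕ → ZMod q) (r β : ℕ) (ω : Pth q B) :
    0 ≤ bb c K0 K7 C11 C12 C13 X Y t r β ω := by
  unfold bb
  refine sum_nonneg fun l _ => ?_
  have h1 := ii_nonneg (NCv c X Y t ω r β l)
  have h2 : 0 ≤ ∑ l' ∈ IL M B n K7 r β, bt c K0 C11 C12 C13 ω r l l' :=
    sum_nonneg fun l' _ => bt_nonneg c K0 C11 C12 C13 ω r l l'
  positivity

lemma Xij_nonneg (c : Flg q M B n) (K0 K7 : ℕ) (j : ℕ) (ω : Pth q B) : 0 ≤ Xij c K0 K7 j ω :=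
  sum_nonneg fun l _ => mul_nonneg (RR_nonneg c ω l _) (ii_nonneg _)

/-! measurability -/

lemma GG_dep (c : Flg q M B n) (K7 : ℕ) (j : ℕ) : DepLT j (GG c K7 j) := by
  intro ω ω' h
  have h' := agr_past (M := M) h
  unfold GG
  rw [Exc_agr c h', PairG_agr c h']

lemma Y0_dep {c : Flg q M B n} (hc : IsFlags c) (hM : 0 < M) (K0 K7 : ℕ)
    (X : Fin (n+2) → ℕ → ZMod q) (Y t : ℕ → ZMod q) (j : ℕ) :
    DepLT (j+1) (Y0 c K0 K7 X Y t j) := by
  intro ω ω' h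
  have h' := agr_times (M := M) hM h
  unfold Y0
  refine sum_congr rfl fun l hl => ?_
  rw [TT_agr hc hl h', ii_congr (Gx_agr (K0 := K0) hc hl h')]

lemma Yj_dep {c : Flg q M B n} (hc : IsFlags c) (hM : 0 < M) (K0 K7 : ℕ)
    (X : Fin (n+2) → ℕ → ZMod q) (Y t : ℕ → ZMod q) (j : ℕ) :
    DepLT (j+1) (Yj c K0 K7 X Y t j) := by
  intro ω ω' h
  unfold Yj
  rw [GG_dep c K7 j ω ω' (h.mono (Nat.le_succ j)), Y0_dep hc hM K0 K7 X Y t j ω ω' h]

lemma Xij_dep {c : Flg q M B n} (hc : IsFlags c) (hM : 0 < M) (K0 K7 : ℕ) (j : ℕ) :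
    DepLT (j+1) (Xij c K0 K7 j) := by
  intro ω ω' h
  have h' := agr_times (M := M) hM h
  unfold Xij
  refine sum_congr rfl fun l hl => ?_
  rw [RR_agr hc hl h', ii_congr (Gx_agr (K0 := K0) hc hl h')]

lemma bb_dep {c : Flg q M B n} (hM : 0 < M) (K0 K7 C11 C12 C13 : ℕ)
    (X : Fin (n+2) → ℕ → ZMod q) (Y t : ℕ → ZMod q) (j : ℕ) :
    DepLT j (bb c K0 K7 C11 C12 C13 X Y t (j / M) (M - 1 - j % M)) := by
  intro ω ω' h
  have h' := agr_past (M := M) h
  have h1 := Nat.mod_lt j hM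
  have h2 := Nat.div_add_mod j M
  rw [mul_comm] at h2
  have h'' : Agr ((j / M) * M + (M - (M - 1 - j % M + 1))) ω ω' := h.mono (by omega)
  unfold bb bt
  refine sum_congr rfl fun l _ => ?_
  rw [ii_congr (NCv_agr c h'' X Y t)]
  congr 1
  refine sum_congr rfl fun l' _ => ?_
  rw [QQ_agr c h']

lemma AlX_dep {c : Flg q M B n} (hc : IsFlags c) (hM : 0 < M) (K0 K7 : ℕ) (j : ℕ) :
    DepLT j (AlX c K0 K7 j) := by
  classical
  intro ω ω' h
  have h' := agr_past (M := M) h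
  unfold AlX
  apply Finset.filter_congr
  intro z _
  rw [Exc_agr c h']
  refine imp_congr_right fun _ => forall₂_congr fun l hl => ?_
  have e : Agr (j+1) (Function.update ω j z) (Function.update ω' j z) := by
    intro i hi
    rcases Nat.lt_or_eq_of_le (Nat.lt_succ_iff.1 hi) with h1 | h1
    · rw [Function.update_of_ne h1.ne, Function.update_of_ne h1.ne]
      exact h i h1
    · rw [h1, Function.update_self, Function.update_self]
  exact Gx_agr hc hl (agr_times hM e)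

end incr

section mean
variable {q M B n : ℕ} [Fact q.Prime]

/-- **The mean of the increment over the allowed set.** -/
theorem mean_bound {C11 C12 C13 K0 : ℕ} {c : Flg q M B n} (hc : IsFlags c)
    (h10 : St_C10)
    (h11 : ∀ (ω : Pth q B) (r : ℕ) (b : Fin M) (l : Fin (n+2) → ℕ), l ∈ IL M B n (2*n+6) r b →
      Exc c ω r → ∀ (X : Fin (n+2) → ℕ → ZMod q) (Y t : ℕ → ZMod q),
      |∑ z : Blk q B, TT c (cD M B X Y) t (Function.update ω (r * M + (M - 1 - b)) z) r l *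
          ii (Gx c K0 (Function.update ω (r * M + (M - 1 - b)) z) l r)| ≤
        (q:ℝ) ^ B * (C11 * (La q : ℝ) ^ (n + 1) * (uu q : ℝ) ^ 2 + C11 * QQ c ω r l l / 2 ^ K0 +
          ii (NCv c X Y t ω r b l) * (C11 * (La q : ℝ) ^ (n + 3))))
    (h12 : ∀ (ω : Pth q B) (r : ℕ) (b : Fin M) (l l' : Fin (n+2) → ℕ), l ∈ IL M B n (2*n+6) r b →
      l' ∈ IL M B n (2*n+6) r b → l ≠ l' → 1 ≤ dm M B (mxv l l') r → Exc c ω r →
      ∑ z : Blk q B, RR c (Function.update ω (r * M + (M - 1 - b)) z) l r *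
          (ii (Gx c K0 (Function.update ω (r * M + (M - 1 - b)) z) l r) *
           ii (¬ Gx c K0 (Function.update ω (r * M + (M - 1 - b)) z) l' r)) ≤
        (q:ℝ) ^ B * (C12 * (La q : ℝ) ^ (n + 1) * (uu q : ℝ) ^ 2 + C12 * QQ c ω r l l' / 2 ^ K0))
    (h13 : ∀ (ω : Pth q B) (r : ℕ) (b : Fin M) (l l' : Fin (n+2) → ℕ), l ∈ IL M B n (2*n+6) r b →
      l' ∈ IL M B n (2*n+6) r b → dm M B (mxv l l') r = 0 → Exc c ω r → PairG c (2*n+6) ω r →
      ∑ z : Blk q B, RR c (Function.update ω (r * M + (M - 1 - b)) z) l r *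
           ii (¬ Gx c K0 (Function.update ω (r * M + (M - 1 - b)) z) l' r) ≤
        (q:ℝ) ^ B * (C13 * (La q : ℝ) ^ (2 * n + 5) / 2 ^ K0))
    (X : Fin (n+2) → ℕ → ZMod q) (Y t : ℕ → ZMod q) {j : ℕ} (hj : j < M * B * M) (ω : Pth q B)
    (hG : GG c (2*n+6) j ω) :
    |∑ z ∈ AlX c K0 (2*n+6) j ω, Yj c K0 (2*n+6) X Y t j (Function.update ω j z)| ≤
      (q:ℝ) ^ B * bb c K0 (2*n+6) C11 C12 C13 X Y t (j / M) (M - 1 - j % M) ω := by
  classical
  have hM : 0 < M := by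
    rcases Nat.eq_zero_or_pos M with h | h
    · subst h; simp at hj
    · exact h
  have hmod := Nat.mod_lt j hM
  have hdiv := Nat.div_add_mod j M
  obtain ⟨r, hr⟩ : ∃ r, r = j / M := ⟨_, rfl⟩
  obtain ⟨β, hβ⟩ : ∃ β, β = M - 1 - j % M := ⟨_, rfl⟩
  rw [← hr] at hdiv
  rw [← hr, ← hβ]
  have hβM : β < M := by omega
  set b : Fin M := ⟨β, hβM⟩ with hb
  have hjb : j = r * M + (M - 1 - (b:ℕ)) := by
    show j = r * M + (M - 1 - β)
    rw [mul_comm r M]
    omega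
  have hrm : r < M * B := by
    rw [hr]; exact Nat.div_lt_of_lt_mul (by rw [mul_comm M (M * B)]; exact hj)
  obtain ⟨hG1, hE, hP⟩ := hG
  rw [← hr] at hG1 hE hP
  -- notation
  set I := IL M B n (2*n+6) r β with hI
  set U : Blk q B → Pth q B := fun z => Function.update ω j z with hU
  have hEz : ∀ z, Exc c (U z) r := fun z =>
    (Exc_agr c (agr_upd ω (by rw [hjb]; omega) z)).1 hE
  have hYz : ∀ z, Yj c K0 (2*n+6) X Y t j (U z) =
      ∑ l ∈ I, TT c (cD M B X Y) t (U z) r l * ii (Gx c K0 (U z) l r) := by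
    intro z
    unfold Yj Y0
    rw [← hr, ← hβ, ii_true, one_mul]
    rw [← GG_dep c (2*n+6) j ω (U z) (agr_update j ω z)]
    exact ⟨by rw [← hr]; exact hG1, by rw [← hr]; exact hE, by rw [← hr]; exact hP⟩
  rw [sum_congr rfl (fun z _ => hYz z), sum_comm]
  refine (abs_sum_le_sum_abs _ _).trans ?_
  unfold bb
  rw [mul_sum]
  refine sum_le_sum fun l hl => ?_
  -- one level
  set f : Blk q B → ℝ := fun z => TT c (cD M B X Y) t (U z) r l * ii (Gx c K0 (U z) l r) with hf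
  set g : Blk q B → ℝ := fun z => RR c (U z) l r * ii (Gx c K0 (U z) l r) with hg
  have hfg : ∀ z, |f z| ≤ g z := by
    intro z
    rw [hf, hg]
    simp only
    rw [abs_mul, abs_of_nonneg (ii_nonneg _)]
    exact mul_le_mul_of_nonneg_right ((h10 n q M B c (U z) r l hrm (hEz z) X Y t).1) (ii_nonneg _)
  have hg0 : ∀ z, 0 ≤ g z := fun z => (abs_nonneg _).trans (hfg z)
  have hsplit : ∑ z ∈ AlX c K0 (2*n+6) j ω, f z = ∑ z, f z - ∑ z ∈ (AlX c K0 (2*n+6) j ω)ᶜ, f z := by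
    rw [← Finset.sum_add_sum_compl (AlX c K0 (2*n+6) j ω) f]; ring
  have h1 := h11 ω r b l hl hE X Y t
  rw [← hjb] at h1
  -- outside of the allowed set
  have h2 : ∀ z ∈ (AlX c K0 (2*n+6) j ω)ᶜ, g z ≤
      ∑ l' ∈ I.erase l, RR c (U z) l r * (ii (Gx c K0 (U z) l r) * ii (¬ Gx c K0 (U z) l' r)) := by
    intro z hz
    have h3 : ∃ l' ∈ I, ¬ Gx c K0 (U z) l' r := by
      by_contra hcon
      push Not at hcon
      rw [Finset.mem_compl] at hz
      apply hz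
      unfold AlX
      rw [mem_filter, ← hr, ← hβ]
      exact ⟨mem_univ _, fun _ => hcon⟩
    obtain ⟨l', hl', hl'G⟩ := h3
    by_cases hGl : Gx c K0 (U z) l r
    · have hne : l' ≠ l := by rintro rfl; exact hl'G hGl
      have h4 : g z = RR c (U z) l r * (ii (Gx c K0 (U z) l r) * ii (¬ Gx c K0 (U z) l' r)) := by
        rw [hg]
        simp only
        rw [ii_true hl'G, mul_one]
      rw [h4]
      exact single_le_sum (f := fun l' => RR c (U z) l r *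
        (ii (Gx c K0 (U z) l r) * ii (¬ Gx c K0 (U z) l' r)))
        (fun l' _ => mul_nonneg (RR_nonneg _ _ _ _) (mul_nonneg (ii_nonneg _) (ii_nonneg _)))
        (mem_erase.2 ⟨hne, hl'⟩)
    · have h4 : g z = 0 := by
        rw [hg]; simp only; rw [ii_false hGl, mul_zero]
      rw [h4]
      exact sum_nonneg fun l' _ => mul_nonneg (RR_nonneg _ _ _ _)
        (mul_nonneg (ii_nonneg _) (ii_nonneg _))
  have h3 : ∑ z ∈ (AlX c K0 (2*n+6) j ω)ᶜ, g z ≤ ∑ l' ∈ I.erase l, (q:ℝ) ^ B *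
      bt c K0 C11 C12 C13 ω r l l' := by
    calc ∑ z ∈ (AlX c K0 (2*n+6) j ω)ᶜ, g z
        ≤ ∑ z ∈ (AlX c K0 (2*n+6) j ω)ᶜ, ∑ l' ∈ I.erase l,
          RR c (U z) l r * (ii (Gx c K0 (U z) l r) * ii (¬ Gx c K0 (U z) l' r)) :=
          sum_le_sum h2
      _ ≤ ∑ z, ∑ l' ∈ I.erase l,
          RR c (U z) l r * (ii (Gx c K0 (U z) l r) * ii (¬ Gx c K0 (U z) l' r)) :=
          sum_le_sum_of_subset_of_nonneg (subset_univ _) fun z _ _ =>
            sum_nonneg fun l' _ => mul_nonneg (RR_nonneg _ _ _ _)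
              (mul_nonneg (ii_nonneg _) (ii_nonneg _))
      _ = ∑ l' ∈ I.erase l, ∑ z,
          RR c (U z) l r * (ii (Gx c K0 (U z) l r) * ii (¬ Gx c K0 (U z) l' r)) := sum_comm
      _ ≤ _ := by
          refine sum_le_sum fun l' hl' => ?_
          rw [mem_erase] at hl'
          unfold bt
          by_cases hd : 1 ≤ dm M B (mxv l l') r
          · rw [if_pos hd]
            have h5 := h12 ω r b l l' hl hl'.2 (Ne.symm hl'.1) hd hE
            rw [← hjb] at h5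
            refine h5.trans ?_
            apply mul_le_mul_of_nonneg_left _ (by positivity)
            apply add_le_add_right
            have h6 := QQ_nonneg c ω r l l'
            apply div_le_div_of_nonneg_right _ (by positivity)
            apply mul_le_mul_of_nonneg_right _ h6
            have : (0:ℝ) ≤ C11 := Nat.cast_nonneg _
            linarith
          · rw [if_neg hd]
            have h5 := h13 ω r b l l' hl hl'.2 (by omega) hE hP
            rw [← hjb] at h5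
            refine le_trans (sum_le_sum fun z _ => ?_) h5
            apply mul_le_mul_of_nonneg_left _ (RR_nonneg _ _ _ _)
            calc ii (Gx c K0 (U z) l r) * ii (¬ Gx c K0 (U z) l' r)
                ≤ 1 * ii (¬ Gx c K0 (U z) l' r) :=
                  mul_le_mul_of_nonneg_right (ii_le_one _) (ii_nonneg _)
              _ = _ := one_mul _
  have h4 : |∑ z ∈ (AlX c K0 (2*n+6) j ω)ᶜ, f z| ≤ ∑ l' ∈ I.erase l, (q:ℝ) ^ B *
      bt c K0 C11 C12 C13 ω r l l' :=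
    ((abs_sum_le_sum_abs _ _).trans (sum_le_sum fun z _ => hfg z)).trans h3
  have h5 : C11 * QQ c ω r l l / 2 ^ K0 ≤ bt c K0 C11 C12 C13 ω r l l := by
    unfold bt
    have h6 : mxv l l = l := by funext a; exact max_self _
    have h7 : 1 ≤ dm M B (mxv l l) r := by
      rw [h6]
      rw [mem_IL] at hl
      unfold dm
      omega
    rw [if_pos h7]
    have h8 : (0:ℝ) ≤ C12 * (La q : ℝ) ^ (n + 1) * (uu q : ℝ) ^ 2 := by positivity
    have h9 : C11 * QQ c ω r l l / 2 ^ K0 ≤ (C11 + C12) * QQ c ω r l l / 2 ^ K0 := by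
      have h6 := QQ_nonneg c ω r l l
      apply div_le_div_of_nonneg_right _ (by positivity)
      apply mul_le_mul_of_nonneg_right _ h6
      have : (0:ℝ) ≤ C12 := Nat.cast_nonneg _
      linarith
    linarith
  rw [hsplit]
  refine (abs_sub _ _).trans ?_
  have hqB : (0:ℝ) ≤ (q:ℝ) ^ B := by positivity
  have h8 : ∑ l' ∈ I, bt c K0 C11 C12 C13 ω r l l' = bt c K0 C11 C12 C13 ω r l l +
      ∑ l' ∈ I.erase l, bt c K0 C11 C12 C13 ω r l l' := (Finset.add_sum_erase I _ hl).symm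
  rw [← mul_sum] at h4
  have h9 : (q:ℝ) ^ B * (C11 * QQ c ω r l l / 2 ^ K0) ≤ (q:ℝ) ^ B * bt c K0 C11 C12 C13 ω r l l :=
    mul_le_mul_of_nonneg_left h5 hqB
  rw [h8]
  have h10' : |∑ z, f z| ≤ (q:ℝ) ^ B * (C11 * (La q : ℝ) ^ (n + 1) * (uu q : ℝ) ^ 2 +
      C11 * QQ c ω r l l / 2 ^ K0 + ii (NCv c X Y t ω r b l) * (C11 * (La q : ℝ) ^ (n + 3))) := h1
  have h11' : ii (NCv c X Y t ω r b l) = ii (NCv c X Y t ω r β l) := rfl
  rw [h11'] at h10'
  calc |∑ z, f z| + |∑ z ∈ (AlX c K0 (2*n+6) j ω)ᶜ, f z|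
      ≤ (q:ℝ) ^ B * (C11 * (La q : ℝ) ^ (n + 1) * (uu q : ℝ) ^ 2 +
      C11 * QQ c ω r l l / 2 ^ K0 + ii (NCv c X Y t ω r β l) * (C11 * (La q : ℝ) ^ (n + 3))) +
      (q:ℝ) ^ B * ∑ l' ∈ I.erase l, bt c K0 C11 C12 C13 ω r l l' := add_le_add h10' h4
    _ ≤ _ := by
      have : (q:ℝ) ^ B * (C11 * (La q : ℝ) ^ (n + 1) * (uu q : ℝ) ^ 2 +
        ii (NCv c X Y t ω r β l) * (C11 * (La q : ℝ) ^ (n + 3)) +
        (bt c K0 C11 C12 C13 ω r l l + ∑ l' ∈ I.erase l, bt c K0 C11 C12 C13 ω r l l')) =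
        (q:ℝ) ^ B * (C11 * (La q : ℝ) ^ (n + 1) * (uu q : ℝ) ^ 2 +
        ii (NCv c X Y t ω r β l) * (C11 * (La q : ℝ) ^ (n + 3))) +
        (q:ℝ) ^ B * bt c K0 C11 C12 C13 ω r l l +
        (q:ℝ) ^ B * ∑ l' ∈ I.erase l, bt c K0 C11 C12 C13 ω r l l' := by ring
      rw [this]
      linarith

end mean

end Pool.Agent.Y258.X
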