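import Pool.Agent.Y258.SX.XCore1

set_option autoImplicit false
set_option linter.unusedSectionVars false

/-!
# Expectations of the costs (second version)
-/

namespace Pool.Agent.Y258.X

open Finset Pool.Agent.H470D4 Pool.Agent.Y258
open Pool.Agent.H935R2.PS (La uu nn dl mx Suit)

section EEb
variable {q M B n : ℕ} [Fact q.Prime]

lemma EE_Xi (Al : ℕ → Pth q B → Finset (Blk q B)) (hB : ∀ j ω, q ^ B ≤ 2 * (Al j ω).card)
    (h4 : 4 ≤ q) {c : Flg q M B n} (hc : IsFlags c) (hM : 0 < M) {K0 K7 j T : ℕ} (hjT : j < T)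
    {V : Pth q B → ℝ} (hVd : DepLT j V) (hV0 : ∀ ω, 0 ≤ V ω)
    (hV : ∀ ω, GG c K7 j ω → ∑ z : Blk q B, (Xij c K0 K7 j (Function.update ω j z)) ^ 2 ≤
      (q:ℝ) ^ B * V ω) (ω₀ : Pth q B) :
    EE Al 0 T (fun ω => ii (GG c K7 j ω) * (Xij c K0 K7 j ω) ^ 2) ω₀ ≤ 2 * EE Al 0 T V ω₀ := by
  have hne := Al_ne h4 Al hB
  have hdep : DepLT (j+1) (fun ω : Pth q B => ii (GG c K7 j ω) * (Xij c K0 K7 j ω) ^ 2) := by
    intro ω ω' h
    simp only
    rw [GG_dep c K7 j ω ω' (h.mono (Nat.le_succ j)), Xij_dep hc hM K0 K7 j ω ω' h]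
  rw [EE_upto Al hne (show j + 1 ≤ T by omega) hdep, EE_upto Al hne hjT.le hVd, ← EE_const_mul]
  show EE Al 0 j (E1 Al (0 + j) _) ω₀ ≤ _
  rw [Nat.zero_add]
  refine EE_mono Al 0 j fun ω _ => ?_
  have hcard : (0:ℝ) < (Al j ω).card := by exact_mod_cast card_pos.2 (hne j ω)
  have hB' : (q:ℝ) ^ B ≤ 2 * (Al j ω).card := by exact_mod_cast hB j ω
  unfold E1
  rw [div_le_iff₀ hcard]
  have e1 : ∀ z, ii (GG c K7 j (Function.update ω j z)) = ii (GG c K7 j ω) := fun z => by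
    rw [← GG_dep c K7 j ω _ (agr_update j ω z)]
  simp only [e1]
  by_cases hG : GG c K7 j ω
  · rw [ii_true hG]
    simp only [one_mul]
    calc ∑ z ∈ Al j ω, (Xij c K0 K7 j (Function.update ω j z)) ^ 2
        ≤ ∑ z : Blk q B, (Xij c K0 K7 j (Function.update ω j z)) ^ 2 :=
          sum_le_sum_of_subset_of_nonneg (subset_univ _) fun z _ _ => sq_nonneg _
      _ ≤ (q:ℝ) ^ B * V ω := hV ω hG
      _ ≤ (2 * (Al j ω).card) * V ω := mul_le_mul_of_nonneg_right hB' (hV0 ω)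
      _ = 2 * V ω * (Al j ω).card := by ring
  · rw [ii_false hG]
    simp only [zero_mul, sum_const_zero]
    have := hV0 ω
    positivity

/-- the accidental part of the bias -/
noncomputable def SQ (c : Flg q M B n) (K7 : ℕ) (ω : Pth q B) : ℝ :=
  ∑ r ∈ range (M * B), ∑ β ∈ range M, ∑ l ∈ IL M B n K7 r β, ∑ l' ∈ IL M B n K7 r β,
    if n + 3 ≤ r ∧ 1 ≤ dm M B (mxv l l') r then QQ c ω r l l' else 0

lemma SQ_nonneg (c : Flg q M B n) (K7 : ℕ) (ω : Pth q B) : 0 ≤ SQ c K7 ω := by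
  unfold SQ
  refine sum_nonneg fun r _ => sum_nonneg fun β _ => sum_nonneg fun l _ => sum_nonneg fun l' _ => ?_
  split_ifs
  · exact QQ_nonneg c ω r l l'
  · exact le_rfl

lemma EE_SQ (Al : ℕ → Pth q B → Finset (Blk q B)) (hB : ∀ j ω, q ^ B ≤ 2 * (Al j ω).card)
    (h8 : 8 ≤ q) {c : Flg q M B n} {K7 : ℕ} (hK7 : 1 ≤ K7) {a : ℝ} (ha : 0 ≤ a)
    (h5 : ∀ (r : ℕ) (l l' : Fin (n+2) → ℕ), ∑ a, mxv l l' a + (n + 2) ≤ M * B →
      ∑ a, mxv l l' a + r ≤ M * B → dm M B l' r ≤ n + 2 → ∀ ω₀,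
      EE Al 0 (r * M) (fun ω => QQ c ω r l l') ω₀ ≤ a) (ω₀ : Pth q B) :
    EE Al 0 (M * B * M) (SQ c K7) ω₀ ≤
      (M * B : ℕ) * (M * ((n + 2 : ℕ) * (B * ((M * B : ℕ) : ℝ) ^ n) *
        (((2 * (2 * (n + 1)) + 1) ^ (n + 2) : ℕ) * a))) := by
  classical
  have hne := Al_ne (by omega) Al hB
  unfold SQ
  rw [EE_sum]
  have hr : ∀ r ∈ range (M * B), EE Al 0 (M * B * M) (fun ω => ∑ β ∈ range M,
      ∑ l ∈ IL M B n K7 r β, ∑ l' ∈ IL M B n K7 r β,
      if n + 3 ≤ r ∧ 1 ≤ dm M B (mxv l l') r then QQ c ω r l l' else 0) ω₀ ≤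
      M * ((n + 2 : ℕ) * (B * ((M * B : ℕ) : ℝ) ^ n) *
        (((2 * (2 * (n + 1)) + 1) ^ (n + 2) : ℕ) * a)) := by
    intro r hr
    rw [mem_range] at hr
    rw [EE_sum]
    have hβ : ∀ β ∈ range M, EE Al 0 (M * B * M) (fun ω => ∑ l ∈ IL M B n K7 r β,
        ∑ l' ∈ IL M B n K7 r β,
        if n + 3 ≤ r ∧ 1 ≤ dm M B (mxv l l') r then QQ c ω r l l' else 0) ω₀ ≤
        (n + 2 : ℕ) * (B * ((M * B : ℕ) : ℝ) ^ n) *
        (((2 * (2 * (n + 1)) + 1) ^ (n + 2) : ℕ) * a) := by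
      intro β _
      rw [EE_sum]
      have hl : ∀ l ∈ IL M B n K7 r β, EE Al 0 (M * B * M) (fun ω =>
          ∑ l' ∈ IL M B n K7 r β,
          if n + 3 ≤ r ∧ 1 ≤ dm M B (mxv l l') r then QQ c ω r l l' else 0) ω₀ ≤
          ((2 * (2 * (n + 1)) + 1) ^ (n + 2) : ℕ) * a := by
        intro l hl
        rw [EE_sum]
        have hl' : ∀ l' ∈ IL M B n K7 r β, EE Al 0 (M * B * M) (fun ω =>
            if n + 3 ≤ r ∧ 1 ≤ dm M B (mxv l l') r then QQ c ω r l l' else 0) ω₀ ≤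
            if 1 ≤ dm M B (mxv l l') r then a else 0 := by
          intro l' hl'
          by_cases h1 : 1 ≤ dm M B (mxv l l') r
          · rw [if_pos h1]
            by_cases h2 : n + 3 ≤ r
            · simp only [h1, h2, and_self, if_true]
              have hdep : DepLT (r * M) (fun ω : Pth q B => QQ c ω r l l') :=
                fun ω ω' h => QQ_agr c h l l'
              rw [EE_upto Al hne (show r * M ≤ M * B * M from Nat.mul_le_mul_right _ hr.le) hdep]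
              have h3 : ∑ a, mxv l l' a + r < M * B := by
                unfold dm at h1; omega
              rw [mem_IL] at hl'
              exact h5 r l l' (by omega) (by omega) (by unfold dm; omega) ω₀
            · simp only [h2, false_and, if_false]
              rw [EE_cst Al hne]
              exact ha
          · simp only [h1, and_false, if_false]
            rw [EE_cst Al hne]
        refine (sum_le_sum hl').trans ?_
        rw [← sum_filter, sum_const, nsmul_eq_mul]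
        apply mul_le_mul_of_nonneg_right _ ha
        exact_mod_cast card_nb hl
      refine (sum_le_sum hl).trans ?_
      rw [sum_const, nsmul_eq_mul]
      apply mul_le_mul_of_nonneg_right _ (by positivity)
      have := card_IL (M := M) (B := B) (n := n) (K7 := K7) (r := r) (β := β) hK7
      exact_mod_cast this
    refine (sum_le_sum hβ).trans ?_
    rw [sum_const, card_range, nsmul_eq_mul]
  refine (sum_le_sum hr).trans ?_
  rw [sum_const, card_range, nsmul_eq_mul]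

/-! ### the second moment along the path -/

/-- the numerical part of the second moment -/
noncomputable def W0 (q M B n K0 : ℕ) : ℝ :=
  (La q : ℝ) ^ (2 * n + 6) * ((n + 2 : ℕ) * (B * ((M * B : ℕ) : ℝ) ^ n)) ^ 2 +
    (La q : ℝ) ^ (n + 2) * 2 ^ K0 * ((n + 2 : ℕ) * (B * ((M * B : ℕ) : ℝ) ^ n))

/-- the random part of the second moment -/
noncomputable def QD (c : Flg q M B n) (K7 r β : ℕ) (ω : Pth q B) : ℝ :=
  if n + 3 ≤ r then ∑ l ∈ IL M B n K7 r β, QQ c ω r l l else 0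

/-- the second moment -/
noncomputable def VV (c : Flg q M B n) (K0 K7 C14 : ℕ) (j : ℕ) (ω : Pth q B) : ℝ :=
  C14 * (W0 q M B n K0 + QD c K7 (j / M) (M - 1 - j % M) ω)

lemma W0_nonneg (q M B n K0 : ℕ) : 0 ≤ W0 q M B n K0 := by unfold W0; positivity

lemma QD_nonneg (c : Flg q M B n) (K7 r β : ℕ) (ω : Pth q B) : 0 ≤ QD c K7 r β ω := by
  unfold QD
  split_ifs
  · exact sum_nonneg fun l _ => QQ_nonneg c ω r l l
  · exact le_rfl

lemma VV_nonneg (c : Flg q M B n) (K0 K7 C14 : ℕ) (j : ℕ) (ω : Pth q B) :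
    0 ≤ VV c K0 K7 C14 j ω := by
  unfold VV
  have := W0_nonneg q M B n K0
  have := QD_nonneg c K7 (j / M) (M - 1 - j % M) ω
  positivity

lemma VV_dep (c : Flg q M B n) (K0 K7 C14 : ℕ) (j : ℕ) : DepLT j (VV c K0 K7 C14 j) := by
  intro ω ω' h
  have h' := agr_past (M := M) h
  unfold VV QD
  have : ∀ l, QQ c ω (j / M) l l = QQ c ω' (j / M) l l := fun l => QQ_agr c h' l l
  simp only [this]

lemma QD_le (c : Flg q M B n) (K7 r β : ℕ) (ω : Pth q B) : QD c K7 r β ω ≤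
    ∑ l ∈ IL M B n K7 r β, ∑ l' ∈ IL M B n K7 r β,
    if n + 3 ≤ r ∧ 1 ≤ dm M B (mxv l l') r then QQ c ω r l l' else 0 := by
  have h0 : ∀ l l' : Fin (n+2) → ℕ,
      0 ≤ (if n + 3 ≤ r ∧ 1 ≤ dm M B (mxv l l') r then QQ c ω r l l' else 0) := by
    intro l l'
    split_ifs
    · exact QQ_nonneg c ω r l l'
    · exact le_rfl
  unfold QD
  split_ifs with hr
  · refine sum_le_sum fun l hl => ?_
    have h1 := single_le_sum (f := fun l' =>
      if n + 3 ≤ r ∧ 1 ≤ dm M B (mxv l l') r then QQ c ω r l l' else 0) (fun l' _ => h0 l l') hl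
    have h6 : mxv l l = l := by funext a; exact max_self _
    have h7 : 1 ≤ dm M B (mxv l l) r := by
      rw [h6]
      rw [mem_IL] at hl
      unfold dm
      omega
    beta_reduce at h1
    rwa [if_pos ⟨hr, h7⟩] at h1
  · exact sum_nonneg fun l _ => sum_nonneg fun l' _ => h0 l l'

lemma sum_VV (c : Flg q M B n) (K0 K7 C14 : ℕ) (ω : Pth q B) :
    ∑ j ∈ range (M * B * M), VV c K0 K7 C14 j ω ≤
      C14 * ((M * B * M : ℕ) * W0 q M B n K0 + SQ c K7 ω) := by
  unfold VV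
  rw [← mul_sum, sum_add_distrib, sum_const, card_range, nsmul_eq_mul]
  apply mul_le_mul_of_nonneg_left _ (Nat.cast_nonneg _)
  apply add_le_add_right
  rw [sum_times (M := M) (M * B) (fun r β => QD c K7 r β ω)]
  unfold SQ
  exact sum_le_sum fun r _ => sum_le_sum fun β _ => QD_le c K7 r β ω

end EEb

end Pool.Agent.Y258.X
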