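import Pool.Agent.Y258.SX.XCore3

set_option autoImplicit false
set_option linter.unusedSectionVars false

/-!
# The bound of the row sums (second version)
-/

namespace Pool.Agent.Y258.X

open Finset Pool.Agent.H470D4 Pool.Agent.Y258
open Pool.Agent.H935R2.PS (La uu nn dl mx Suit)

section fin
variable {q M B n : ℕ} [Fact q.Prime]

/-- the main sum is the sum of the increments -/
lemma main_eq {K0 : ℕ} {c : Flg q M B n} (hM : 0 < M) {ω : Pth q B}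
    (hE : ∀ r ≤ M * B, Exc c ω r) (hA : ∀ j < M * B * M, ω j ∈ AlX c K0 (2*n+6) j ω)
    (hG : ∀ j < M * B * M, n + 3 ≤ j / M → GG c (2*n+6) j ω)
    (X : Fin (n+2) → ℕ → ZMod q) (Y t : ℕ → ZMod q) :
    ∑ r ∈ range (M * B), (if r < n + 3 then 0 else
      ∑ b ∈ range M, ∑ l ∈ IL M B n (2*n+6) r b, TT c (cD M B X Y) t ω r l) =
    ∑ j ∈ range (M * B * M), ii (GG c (2*n+6) j ω) * Yj c K0 (2*n+6) X Y t j ω := by
  classical
  have h1 : ∀ r ∈ range (M * B), (if r < n + 3 then 0 else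
      ∑ b ∈ range M, ∑ l ∈ IL M B n (2*n+6) r b, TT c (cD M B X Y) t ω r l) =
      ∑ b ∈ range M, (if r < n + 3 then 0 else
      ∑ l ∈ IL M B n (2*n+6) r b, TT c (cD M B X Y) t ω r l) := by
    intro r _
    split_ifs
    · simp
    · rfl
  rw [sum_congr rfl h1, ← sum_times (M := M) (M * B) (fun r b => if r < n + 3 then 0 else
      ∑ l ∈ IL M B n (2*n+6) r b, TT c (cD M B X Y) t ω r l)]
  refine sum_congr rfl fun j hj => ?_
  rw [mem_range] at hj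
  by_cases h2 : j / M < n + 3
  · rw [if_pos h2, ii_false, zero_mul]
    rintro ⟨h3, _⟩
    omega
  · rw [if_neg h2]
    have h3 := hG j hj (by omega)
    unfold Yj Y0
    rw [ii_true h3, one_mul, one_mul]
    refine sum_congr rfl fun l hl => ?_
    have h4 := hA j hj
    unfold AlX at h4
    rw [mem_filter] at h4
    have h5 := h4.2 h3.2.1 l hl
    rw [Function.update_eq_self] at h5
    rw [ii_true h5, mul_one]

open Classical in
/-- the bias of a row and block, in terms of the counts -/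
lemma bb_le {K0 C11 C12 C13 : ℕ} {c : Flg q M B n} {ω : Pth q B} (X : Fin (n+2) → ℕ → ZMod q)
    (Y t : ℕ → ZMod q) {r β : ℕ} (hr : n + 3 ≤ r) :
    bb c K0 (2*n+6) C11 C12 C13 X Y t r β ω ≤
      ((n + 2 : ℕ) * (B * ((M * B : ℕ) : ℝ) ^ n)) * (C11 * (La q : ℝ) ^ (n + 1) * (uu q : ℝ) ^ 2 +
        ((2 * (2 * (n + 1)) + 1) ^ (n + 2) : ℕ) *
          (C12 * (La q : ℝ) ^ (n + 1) * (uu q : ℝ) ^ 2) +
        ((n + 2 : ℕ) * (B * ((M * B : ℕ) : ℝ) ^ n)) *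
          (C13 * (La q : ℝ) ^ (2 * n + 5) / 2 ^ K0)) +
      (((IL M B n (2*n+6) r β).filter (fun l => NCv c X Y t ω r β l)).card : ℝ) *
        (C11 * (La q : ℝ) ^ (n + 3)) +
      (C11 + C12) / 2 ^ K0 * ∑ l ∈ IL M B n (2*n+6) r β, ∑ l' ∈ IL M B n (2*n+6) r β,
        (if n + 3 ≤ r ∧ 1 ≤ dm M B (mxv l l') r then QQ c ω r l l' else 0) := by
  have hcard : ((IL M B n (2*n+6) r β).card : ℝ) ≤ (n + 2 : ℕ) * (B * ((M * B : ℕ) : ℝ) ^ n) := by
    have := card_IL (M := M) (B := B) (n := n) (K7 := 2*n+6) (r := r) (β := β) (by omega)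
    exact_mod_cast this
  obtain ⟨I, hI⟩ : ∃ I : ℝ, I = (n + 2 : ℕ) * (B * ((M * B : ℕ) : ℝ) ^ n) := ⟨_, rfl⟩
  rw [← hI] at hcard ⊢
  have hI0 : 0 ≤ I := by rw [hI]; positivity
  obtain ⟨N, hN⟩ : ∃ N : ℝ, N = (((2 * (2 * (n + 1)) + 1) ^ (n + 2) : ℕ) : ℝ) := ⟨_, rfl⟩
  rw [← hN]
  have hN0 : 0 ≤ N := by rw [hN]; positivity
  obtain ⟨a13, ha13⟩ : ∃ a : ℝ, a = C13 * (La q : ℝ) ^ (2 * n + 5) / 2 ^ K0 := ⟨_, rfl⟩
  have ha0 : 0 ≤ a13 := by rw [ha13]; positivity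
  obtain ⟨a12, ha12⟩ : ∃ a : ℝ, a = C12 * (La q : ℝ) ^ (n + 1) * (uu q : ℝ) ^ 2 := ⟨_, rfl⟩
  have ha120 : 0 ≤ a12 := by rw [ha12]; positivity
  obtain ⟨κ, hκ⟩ : ∃ a : ℝ, a = (C11 + C12) / 2 ^ K0 := ⟨_, rfl⟩
  have hκ0 : 0 ≤ κ := by rw [hκ]; positivity
  rw [← hκ, ← ha12]
  unfold bb
  have h1 : ∀ l ∈ IL M B n (2*n+6) r β,
      ∑ l' ∈ IL M B n (2*n+6) r β, bt c K0 C11 C12 C13 ω r l l' ≤
      N * a12 + I * a13 +
      κ * ∑ l' ∈ IL M B n (2*n+6) r β,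
        (if n + 3 ≤ r ∧ 1 ≤ dm M B (mxv l l') r then QQ c ω r l l' else 0) := by
    intro l hl
    have h2 : ∀ l' ∈ IL M B n (2*n+6) r β, bt c K0 C11 C12 C13 ω r l l' ≤
        (if 1 ≤ dm M B (mxv l l') r then a12 else 0) + a13 +
        κ * (if n + 3 ≤ r ∧ 1 ≤ dm M B (mxv l l') r then QQ c ω r l l' else 0) := by
      intro l' _
      unfold bt
      rw [← ha13, ← ha12]
      by_cases h3 : 1 ≤ dm M B (mxv l l') r
      · rw [if_pos h3, if_pos h3, if_pos ⟨hr, h3⟩]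
        have : ((C11:ℝ) + C12) * QQ c ω r l l' / 2 ^ K0 = κ * QQ c ω r l l' := by
          rw [hκ]; ring
        rw [this]
        linarith
      · rw [if_neg h3, if_neg h3, if_neg (fun h => h3 h.2)]
        linarith
    refine (sum_le_sum h2).trans ?_
    rw [sum_add_distrib, sum_add_distrib, ← mul_sum]
    apply add_le_add_left
    apply add_le_add
    · rw [← sum_filter, sum_const, nsmul_eq_mul]
      apply mul_le_mul_of_nonneg_right _ ha120
      rw [hN]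
      exact_mod_cast card_nb hl
    · rw [sum_const, nsmul_eq_mul]
      exact mul_le_mul_of_nonneg_right hcard ha0
  refine (sum_le_sum (g := fun l => (C11 * (La q : ℝ) ^ (n + 1) * (uu q : ℝ) ^ 2 +
      N * a12 + I * a13) +
      ii (NCv c X Y t ω r β l) * (C11 * (La q : ℝ) ^ (n + 3)) +
      κ * ∑ l' ∈ IL M B n (2*n+6) r β,
        (if n + 3 ≤ r ∧ 1 ≤ dm M B (mxv l l') r then QQ c ω r l l' else 0))
    fun l hl => by have := h1 l hl; linarith).trans ?_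
  rw [sum_add_distrib, sum_add_distrib, ← mul_sum]
  apply add_le_add_left
  apply add_le_add
  · rw [sum_const, nsmul_eq_mul, ← ha13]
    apply mul_le_mul_of_nonneg_right hcard
    positivity
  · rw [← sum_mul, ← card_eq_sum_ii]

/-- the sum of the biases -/
lemma sum_bb {K0 C11 C12 C13 : ℕ} {c : Flg q M B n} (hc : IsFlags c) (h16 : St_C16)
    {ω : Pth q B} (hE : ∀ r ≤ M * B, Exc c ω r)
    (X : Fin (n+2) → ℕ → ZMod q) (Y t : ℕ → ZMod q)
    (ht : ∀ r < M * B, t r = row M ω r (xX M B X)) :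
    ∑ j ∈ range (M * B * M), ii (GG c (2*n+6) j ω) *
      (2 * bb c K0 (2*n+6) C11 C12 C13 X Y t (j / M) (M - 1 - j % M) ω) ≤
    2 * ((M * B : ℕ) * (M * (((n + 2 : ℕ) * (B * ((M * B : ℕ) : ℝ) ^ n)) *
        (C11 * (La q : ℝ) ^ (n + 1) * (uu q : ℝ) ^ 2 +
        ((2 * (2 * (n + 1)) + 1) ^ (n + 2) : ℕ) *
          (C12 * (La q : ℝ) ^ (n + 1) * (uu q : ℝ) ^ 2) +
        ((n + 2 : ℕ) * (B * ((M * B : ℕ) : ℝ) ^ n)) *
          (C13 * (La q : ℝ) ^ (2 * n + 5) / 2 ^ K0)))) +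
      (((n + 2) ^ 2 * (M * (M * B + 1) ^ (n + 1)) : ℕ) : ℝ) * (C11 * (La q : ℝ) ^ (n + 3)) +
      (C11 + C12) / 2 ^ K0 * SQ c (2*n+6) ω) := by
  classical
  obtain ⟨D, hD⟩ : ∃ D : ℝ, D = ((n + 2 : ℕ) * (B * ((M * B : ℕ) : ℝ) ^ n)) *
        (C11 * (La q : ℝ) ^ (n + 1) * (uu q : ℝ) ^ 2 +
        ((2 * (2 * (n + 1)) + 1) ^ (n + 2) : ℕ) *
          (C12 * (La q : ℝ) ^ (n + 1) * (uu q : ℝ) ^ 2) +
        ((n + 2 : ℕ) * (B * ((M * B : ℕ) : ℝ) ^ n)) *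
          (C13 * (La q : ℝ) ^ (2 * n + 5) / 2 ^ K0)) := ⟨_, rfl⟩
  have hD0 : 0 ≤ D := by rw [hD]; positivity
  rw [← hD]
  obtain ⟨a, ha⟩ : ∃ a : ℝ, a = C11 * (La q : ℝ) ^ (n + 3) := ⟨_, rfl⟩
  have ha0 : 0 ≤ a := by rw [ha]; positivity
  rw [← ha]
  obtain ⟨κ, hκ⟩ : ∃ a : ℝ, a = (C11 + C12) / 2 ^ K0 := ⟨_, rfl⟩
  have hκ0 : 0 ≤ κ := by rw [hκ]; positivity
  rw [← hκ]
  let g : ℕ → ℕ → ℝ := fun r β => D +
    (((IL M B n (2*n+6) r β).filter (fun l => NCv c X Y t ω r β l)).card : ℝ) * a +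
      κ * ∑ l ∈ IL M B n (2*n+6) r β, ∑ l' ∈ IL M B n (2*n+6) r β,
        (if n + 3 ≤ r ∧ 1 ≤ dm M B (mxv l l') r then QQ c ω r l l' else 0)
  have hg0 : ∀ r β, 0 ≤ g r β := by
    intro r β
    have : 0 ≤ ∑ l ∈ IL M B n (2*n+6) r β, ∑ l' ∈ IL M B n (2*n+6) r β,
        (if n + 3 ≤ r ∧ 1 ≤ dm M B (mxv l l') r then QQ c ω r l l' else 0) := by
      refine sum_nonneg fun l _ => sum_nonneg fun l' _ => ?_
      split_ifs
      · exact QQ_nonneg c ω r l l'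
      · exact le_rfl
    show 0 ≤ D + _ + _
    positivity
  have h1 : ∀ j ∈ range (M * B * M), ii (GG c (2*n+6) j ω) *
      (2 * bb c K0 (2*n+6) C11 C12 C13 X Y t (j / M) (M - 1 - j % M) ω) ≤
      2 * g (j / M) (M - 1 - j % M) := by
    intro j _
    by_cases hG : GG c (2*n+6) j ω
    · rw [ii_true hG, one_mul]
      apply mul_le_mul_of_nonneg_left _ (by norm_num)
      have h2 := bb_le (K0 := K0) (C11 := C11) (C12 := C12) (C13 := C13) (c := c) (ω := ω) X Y t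
        (β := M - 1 - j % M) hG.1
      rw [← hD, ← ha, ← hκ] at h2
      exact h2
    · rw [ii_false hG, zero_mul]
      exact mul_nonneg (by norm_num) (hg0 _ _)
  refine (sum_le_sum h1).trans ?_
  rw [← mul_sum]
  apply mul_le_mul_of_nonneg_left _ (by norm_num)
  rw [sum_times (M := M) (M * B) g]
  have h2 : ∑ r ∈ range (M * B), ∑ β ∈ range M, g r β =
      ∑ _r ∈ range (M * B), ∑ _β ∈ range M, D +
      (∑ r ∈ range (M * B), ∑ β ∈ range M,
        (((IL M B n (2*n+6) r β).filter (fun l => NCv c X Y t ω r β l)).card : ℝ)) * a +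
      κ * SQ c (2*n+6) ω := by
    unfold SQ
    rw [sum_mul, mul_sum, ← sum_add_distrib, ← sum_add_distrib]
    refine sum_congr rfl fun r _ => ?_
    rw [sum_mul, mul_sum, ← sum_add_distrib, ← sum_add_distrib]
  rw [h2]
  apply add_le_add_left
  apply add_le_add
  · rw [sum_const, card_range, sum_const, card_range, nsmul_eq_mul, nsmul_eq_mul]
  · apply mul_le_mul_of_nonneg_right _ ha0
    have h3 := h16 n q M B c hc (2*n+6) (by omega) ω hE X Y
    have h4 : ∑ r ∈ range (M * B), ∑ β ∈ range M,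
        ((IL M B n (2*n+6) r β).filter (fun l => NCv c X Y t ω r β l)).card ≤
        (n + 2) ^ 2 * (M * (M * B + 1) ^ (n + 1)) := by
      refine le_trans (le_of_eq ?_) h3
      refine sum_congr rfl fun r hr => sum_congr rfl fun β _ => ?_
      congr 1
      apply Finset.filter_congr
      intro l _
      exact NCv_t c X Y (ht r (mem_range.1 hr))
    exact_mod_cast h4

end fin

end Pool.Agent.Y258.X
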