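import Pool.Agent.Y258.SD.CStmts2

set_option autoImplicit false

/-!
# Uniform power saving: definitions

The line of a relation is forbidden if it contains a short vector, or if the total dyadic weight of
its vectors is large.
-/

namespace Pool.Agent.Y258

open Finset Pool.Agent.H470D4
open Pool.Agent.H935R2.PS (La uu nn dl mx Suit)

section defs
variable {q : ℕ} {ι : Type} [Fintype ι]

open Classical in
/-- total dyadic weight of the multiples of `h`, relative to the threshold -/
noncomputable def XW [NeZero q] (D K0 : ℕ) (h : ι → ZMod q) : ℝ :=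
  ∑ c ∈ (univ : Finset (ZMod q)).filter (fun c => c ≠ 0),
    (2:ℝ) ^ (D * La q) / 2 ^ (K0 + sz (fun a => c * h a))

/-- the line of `h` contains a short vector -/
def BdL (D K0 : ℕ) (h : ι → ZMod q) : Prop := ∃ c : ZMod q, c ≠ 0 ∧ Bd D K0 (fun a => c * h a)

/-- the line of `h` is forbidden -/
def BX [NeZero q] (lam : ℝ) (D K0 : ℕ) (h : ι → ZMod q) : Prop := BdL D K0 h ∨ lam < XW D K0 h

end defs

section path
variable {q M B n : ℕ}

/-- no relation involving the row `r` on the level `(l, r)` lies on a forbidden line -/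
def Gx [NeZero q] (c : Flg q M B n) (K0 : ℕ) (ω : Pth q B) (l : Fin (n+2) → ℕ) (r : ℕ) : Prop :=
  ∀ H : Option (Fin (n+2)) → ZMod q, H none ≠ 0 → Rel c ω l r H →
    ¬ BX (2 ^ (n + 6)) (dm M B l r) K0 H

open Classical in
/-- the allowed blocks at time `j` (the block `M - 1 - j % M` of the row `j / M`) -/
noncomputable def AlX [NeZero q] (c : Flg q M B n) (K0 K7 : ℕ) (j : ℕ) (ω : Pth q B) :
    Finset (Blk q B) :=
  univ.filter (fun z => Exc c ω (j / M) → ∀ l ∈ IL M B n K7 (j / M) (M - 1 - j % M),
    Gx c K0 (Function.update ω j z) l (j / M))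

open Classical in
/-- the contribution of the accidental relations to the correlation of two levels -/
noncomputable def QQ [NeZero q] (c : Flg q M B n) (ω : Pth q B) (r : ℕ)
    (l l' : Fin (n+2) → ℕ) : ℝ :=
  ∑ H ∈ (univ : Finset (Option (Fin (n+2)) → ZMod q)).filter (fun H => H none ≠ 0),
    ∑ H' ∈ (univ : Finset (Option (Fin (n+2)) → ZMod q)).filter (fun H' => H' none ≠ 0),
      ii (OO l l' H H' ≠ 0 ∧ OR c ω (mxv l l') r (OO l l' H H')) *
        ((q:ℝ) ^ dm M B (mxv l l') r * (wm H * wm H'))

end path

end Pool.Agent.Y258
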