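import Pool.Agent.Y258.SX.XCore5
import Pool.Agent.Y258.SX.XFin
import Pool.Agent.Y258.SD.Final
import Pool.Agent.Y319.SX.NT1
import Pool.Agent.Y496.SX.NT2
import Pool.Agent.Y46.SX.XQ
import Pool.Agent.Y710.SX.X14
import Pool.Agent.Y710.SX.X14b
import Pool.Agent.Y274.SX.X11
import Pool.Agent.Y807.SX.X12

set_option autoImplicit false

/-!
# Uniform power saving in the star discrepancy in all dimensions `d ≥ 3`: assembly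
-/

namespace Pool.Agent.Y258.X

open Finset Pool.Agent.Y258

theorem fx6 : St_X6 :=
  Pool.Agent.Y496.SX.x6 Pool.Agent.Y319.SX.x4 Pool.Agent.Y899.SD.A6a Pool.Agent.Y899.SD.A6b

theorem fx7 : St_X7 :=
  Pool.Agent.Y496.SX.x7 Pool.Agent.Y319.SX.x2 Pool.Agent.Y319.SX.x4
    (Pool.Agent.Y474.SD.a5 Pool.Agent.Y474.SD.a4) Pool.Agent.Y899.SD.A6a

theorem fx8 : St_X8 := Pool.Agent.Y496.SX.x8 Pool.Agent.Y319.SX.x5 Pool.Agent.Y899.SD.A6a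

theorem fx9 : St_X9 := Pool.Agent.Y496.SX.x9 Pool.Agent.Y319.SX.x3 Pool.Agent.Y899.SD.A6a

theorem fc8 : St_C8 := Pool.Agent.Y290.SD.C8_of Pool.Agent.Y899.SD.A6a

theorem fx18 : St_X18 :=
  x18_of Pool.Agent.Y359.SD.c1 Pool.Agent.Y359.SD.c2 Pool.Agent.Y283.SD.C3 Pool.Agent.Y46.SX.xq'
    (Pool.Agent.Y710.SX.x10 fx6) (Pool.Agent.Y359.SD.c8b Pool.Agent.Y899.SD.A6a)
    Pool.Agent.Y838.SD.c10 (Pool.Agent.Y274.SX.x11 fx7 fc8 Pool.Agent.Y838.SD.c10)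
    (Pool.Agent.Y807.SX.x12 Pool.Agent.Y899.SD.A6a fx8)
    (Pool.Agent.Y710.SX.x13 Pool.Agent.Y899.SD.A6a fx6)
    (Pool.Agent.Y710.SX.x14 fx9 fc8) Pool.Agent.Y272.SD.st_C16 Pool.Agent.Y272.SD.st_C17

theorem cl11 : Pool.Agent.Y590.SD.Cl 11 1 := one11 fx18 Pool.Agent.Y141.SDC19.C19 Pool.Agent.Y245.SD.C20

theorem cl5 (k : ℕ) (hk : 2 ≤ k) : Pool.Agent.Y590.SD.Cl 5 k :=
  all5 fx18 Pool.Agent.Y141.SDC19.C19 Pool.Agent.Y245.SD.C20 k hk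

/-- the saving -/
noncomputable def sav (d : ℕ) : ℝ := if d = 3 then 1 / 14 else 1 / 8

/-- Uniform power saving, boxes `[0, x)`. -/
theorem star_open (n : ℕ) (hn : 1 ≤ n) : ∃ C : ℝ, 0 < C ∧ ∀ N : ℕ, 3 ≤ N →
    ∃ ξ : Fin N → Fin (n + 2) → ℝ, (∀ i j, 0 ≤ ξ i j ∧ ξ i j < 1) ∧
      ∀ x : Fin (n + 2) → ℝ, (∀ j, 0 ≤ x j) → (∀ j, x j ≤ 1) →
      |(((univ : Finset (Fin N)).filter (fun i => ∀ j, ξ i j < x j)).card : ℝ)
        - N * ∏ j, x j| ≤ C * (Real.log N) ^ ((n:ℝ) + 1 - sav (n + 2)) *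
          (Real.log (Real.log N)) ^ 2 := by
  unfold sav
  rcases Nat.lt_or_ge n 2 with h | h
  · obtain rfl : n = 1 := by omega
    have := fin_of 11 1 cl11
    norm_num at this ⊢
    exact this
  · have := fin_of 5 n (cl5 n h)
    rw [if_neg (by omega)]
    norm_num at this ⊢
    exact this

/-- Uniform power saving, boxes `[0, x]`. -/
theorem star_closed (n : ℕ) (hn : 1 ≤ n) : ∃ C : ℝ, 0 < C ∧ ∀ N : ℕ, 3 ≤ N →
    ∃ ξ : Fin N → Fin (n + 2) → ℝ,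
    (∀ i j, 0 ≤ ξ i j ∧ ξ i j < 1) ∧ ∀ x : Fin (n + 2) → ℝ, (∀ j, 0 ≤ x j) → (∀ j, x j ≤ 1) →
      ∀ S : Finset (Fin N), (∀ i, i ∈ S ↔ ∀ j, ξ i j ≤ x j) →
      |(S.card : ℝ) - N * ∏ j, x j| ≤ C * (Real.log N) ^ ((n:ℝ) + 1 - sav (n + 2)) *
          (Real.log (Real.log N)) ^ 2 := by
  obtain ⟨C, hC, h⟩ := star_open n hn
  refine ⟨C, hC, fun N hN => ?_⟩
  obtain ⟨ξ, hξ, h1⟩ := h N hN
  refine ⟨ξ, hξ, fun x hx0 hx1 S hS => ?_⟩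
  refine H470D4.closed_of_open_all (fun i j => (hξ i j).2) ?_ hx0 hx1 hS
  intro y hy0 hy1 S' hS'
  have h2 : S' = (univ : Finset (Fin N)).filter (fun i => ∀ j, ξ i j < y j) := by
    ext i
    rw [mem_filter, hS' i]
    simp only [mem_univ, true_and]
  rw [h2]
  exact h1 y hy0 hy1

end Pool.Agent.Y258.X
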