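import Pool.Agent.Y258.SX.XNum
import Pool.Agent.Y590.SD.Ind

set_option autoImplicit false

/-!
# Induction on the dimension (second version)
-/

namespace Pool.Agent.Y258.X

open Finset Pool.Agent.H470D4 Pool.Agent.Y258
open Pool.Agent.H935R2.PS (La uu nn dl mx Suit)
open Pool.Agent.Y590.SD (Cl Cl0 cl0 GB_mono La_pos uu_pos)

lemma stepX (h19 : St_C19) {e k : ℕ} (hst : Stage k e) : ∃ C' : ℕ, ∀ (q : ℕ) [Fact q.Prime],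
      Suit q → C' ≤ q →
      ∀ c : Flg q (La q ^ e) (La q ^ 2) k, IsFlags c → ∀ E : ℝ, GB c E →
      ∃ c' : Flg q (La q ^ e) (La q ^ 2) (k + 1), IsFlags c' ∧
        GB c' (E + C' * (((La q : ℝ) ^ (e + 2)) ^ (k + 2) * (La q : ℝ) ^ (k + 1) *
          (uu q : ℝ) ^ 2 + (La q : ℝ) ^ (e + k + 16))) := by
  obtain ⟨C, hC⟩ := hst
  refine ⟨C, ?_⟩
  intro q _ hs hCq c hc E hE
  obtain ⟨ω, hex, hb⟩ := hC q hs hCq c hc
  obtain ⟨h1, h2⟩ := h19 k q (La q ^ e) (La q ^ 2) c hc ω hex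
  refine ⟨newF c ω, h1, h2 E _ hE ?_ hb⟩
  have hL : (0:ℝ) ≤ La q := Nat.cast_nonneg _
  exact mul_nonneg (Nat.cast_nonneg _) (add_nonneg (mul_nonneg (mul_nonneg
    (pow_nonneg (pow_nonneg hL _) _) (pow_nonneg hL _)) (sq_nonneg _)) (pow_nonneg hL _))

/-- real numbers of the first stage -/
lemma r1 {L u C0 C1 : ℝ} (hL : 1 ≤ L) (hu : 1 ≤ u ^ 2) (h0 : 0 ≤ C0) (h1 : 0 ≤ C1) :
    C0 * L ^ (11 + 2) * L ^ 2 + C1 * ((L ^ (11 + 2)) ^ (0 + 2) * L ^ (0 + 1) * u ^ 2 +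
      L ^ (11 + 0 + 16)) ≤ (C0 + 2 * C1) * (L ^ (11 + 2)) ^ (1 + 1) * L ^ 1 * u ^ 2 := by
  have hL0 : 0 < L := by linarith
  have e1 : L ^ (11 + 2) * L ^ 2 ≤ L ^ 27 * u ^ 2 := by
    calc L ^ (11 + 2) * L ^ 2 = L ^ 15 * 1 := by ring
      _ ≤ L ^ 27 * u ^ 2 := by
        apply mul_le_mul (pow_le_pow_right₀ hL (by norm_num)) hu (by norm_num) (by positivity)
  have e2 : L ^ 27 ≤ L ^ 27 * u ^ 2 := le_mul_of_one_le_right (by positivity) hu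
  have e3 : C0 * L ^ (11 + 2) * L ^ 2 ≤ C0 * (L ^ 27 * u ^ 2) := by
    rw [mul_assoc]; exact mul_le_mul_of_nonneg_left e1 h0
  have e4 : C1 * L ^ (11 + 0 + 16) ≤ C1 * (L ^ 27 * u ^ 2) := mul_le_mul_of_nonneg_left e2 h1
  calc _ = C0 * L ^ (11 + 2) * L ^ 2 + (C1 * (L ^ 27 * u ^ 2) + C1 * L ^ (11 + 0 + 16)) := by ring
    _ ≤ C0 * (L ^ 27 * u ^ 2) + (C1 * (L ^ 27 * u ^ 2) + C1 * (L ^ 27 * u ^ 2)) := by linarith
    _ = _ := by ring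

lemma r2 {L u C0 C1 C2 : ℝ} (hL : 1 ≤ L) (hu : 1 ≤ u ^ 2) (h0 : 0 ≤ C0) (h1 : 0 ≤ C1)
    (h2 : 0 ≤ C2) :
    C0 * L ^ (5 + 2) * L ^ 2 + C1 * ((L ^ (5 + 2)) ^ (0 + 2) * L ^ (0 + 1) * u ^ 2 +
      L ^ (5 + 0 + 16)) + C2 * ((L ^ (5 + 2)) ^ (1 + 2) * L ^ (1 + 1) * u ^ 2 +
      L ^ (5 + 1 + 16)) ≤ (C0 + 2 * C1 + 2 * C2) * (L ^ (5 + 2)) ^ (2 + 1) * L ^ 2 * u ^ 2 := by
  have hL0 : 0 < L := by linarith
  obtain ⟨Y, hY⟩ : ∃ Y : ℝ, Y = L ^ 23 * u ^ 2 := ⟨_, rfl⟩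
  have e0 : L ^ 23 ≤ Y := by rw [hY]; exact le_mul_of_one_le_right (by positivity) hu
  have p : ∀ k : ℕ, k ≤ 23 → L ^ k ≤ Y := fun k hk => (pow_le_pow_right₀ hL hk).trans e0
  have e1 : C0 * L ^ (5 + 2) * L ^ 2 ≤ C0 * Y := by
    rw [mul_assoc, ← pow_add]; exact mul_le_mul_of_nonneg_left (p _ (by norm_num)) h0
  have e2 : C1 * ((L ^ (5 + 2)) ^ (0 + 2) * L ^ (0 + 1) * u ^ 2) ≤ C1 * Y := by
    apply mul_le_mul_of_nonneg_left _ h1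
    rw [hY]
    apply mul_le_mul_of_nonneg_right _ (by positivity)
    rw [← pow_mul, ← pow_add]
    exact pow_le_pow_right₀ hL (by norm_num)
  have e3 : C1 * L ^ (5 + 0 + 16) ≤ C1 * Y := mul_le_mul_of_nonneg_left (p _ (by norm_num)) h1
  have e4 : C2 * ((L ^ (5 + 2)) ^ (1 + 2) * L ^ (1 + 1) * u ^ 2) = C2 * Y := by rw [hY]; ring
  have e5 : C2 * L ^ (5 + 1 + 16) ≤ C2 * Y := mul_le_mul_of_nonneg_left (p _ (by norm_num)) h2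
  have e6 : (C0 + 2 * C1 + 2 * C2) * (L ^ (5 + 2)) ^ (2 + 1) * L ^ 2 * u ^ 2 =
    (C0 + 2 * C1 + 2 * C2) * Y := by rw [hY]; ring
  rw [e6, mul_add, mul_add, e4]
  linarith

lemma r3 {k : ℕ} (hk : 2 ≤ k) {L u C0 C1 : ℝ} (hL : 1 ≤ L) (hu : 1 ≤ u ^ 2) (h0 : 0 ≤ C0)
    (h1 : 0 ≤ C1) :
    C0 * (L ^ (5 + 2)) ^ (k + 1) * L ^ k * u ^ 2 + C1 * ((L ^ (5 + 2)) ^ (k + 2) * L ^ (k + 1) *
      u ^ 2 + L ^ (5 + k + 16)) ≤
      (C0 + 2 * C1) * (L ^ (5 + 2)) ^ (k + 1 + 1) * L ^ (k + 1) * u ^ 2 := by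
  have hL0 : 0 < L := by linarith
  obtain ⟨Y, hY⟩ : ∃ Y : ℝ, Y = L ^ (8 * k + 15) * u ^ 2 := ⟨_, rfl⟩
  have e0 : L ^ (8 * k + 15) ≤ Y := by rw [hY]; exact le_mul_of_one_le_right (by positivity) hu
  have e1 : C0 * (L ^ (5 + 2)) ^ (k + 1) * L ^ k * u ^ 2 ≤ C0 * Y := by
    rw [hY, mul_assoc, mul_assoc, ← mul_assoc (((L ^ (5 + 2)) ^ (k + 1)))]
    apply mul_le_mul_of_nonneg_left _ h0
    apply mul_le_mul_of_nonneg_right _ (by positivity)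
    rw [← pow_mul, ← pow_add]
    exact pow_le_pow_right₀ hL (by omega)
  have e4 : (L ^ (5 + 2)) ^ (k + 2) * L ^ (k + 1) * u ^ 2 = Y := by
    rw [hY, ← pow_mul, ← pow_add]
    congr 2
    ring
  have e5 : C1 * L ^ (5 + k + 16) ≤ C1 * Y :=
    mul_le_mul_of_nonneg_left ((pow_le_pow_right₀ hL (by omega)).trans e0) h1
  have e6 : (C0 + 2 * C1) * (L ^ (5 + 2)) ^ (k + 1 + 1) * L ^ (k + 1) * u ^ 2 =
    (C0 + 2 * C1) * Y := by rw [← e4]; ring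
  rw [e6, mul_add, e4]
  linarith

lemma u2 (q : ℕ) : (1:ℝ) ≤ (uu q : ℝ) ^ 2 := by
  have hu := uu_pos q
  have : (1:ℝ) ≤ uu q := by exact_mod_cast hu
  nlinarith

theorem one11 (h18 : St_X18) (h19 : St_C19) (h20 : St_C20) : Cl 11 1 := by
  obtain ⟨C0, hC0⟩ := cl0 h20 11
  obtain ⟨C1, hC1⟩ := stepX h19 (stage h18 0 11 (by norm_num))
  refine ⟨C0 + 2 * C1 + 3, ?_⟩
  intro q _ hs hq
  have hL := La_pos (q := q) (by omega)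
  obtain ⟨c, hc, hg⟩ := hC0 q hs (by omega)
  obtain ⟨c', hc', hg'⟩ := hC1 q hs (by omega) c hc _ hg
  refine ⟨c', hc', GB_mono hg' ?_⟩
  have hL' : (1:ℝ) ≤ La q := by exact_mod_cast hL
  refine (r1 hL' (u2 q) (Nat.cast_nonneg _) (Nat.cast_nonneg _)).trans ?_
  apply mul_le_mul_of_nonneg_right _ (sq_nonneg _)
  apply mul_le_mul_of_nonneg_right _ (pow_nonneg (Nat.cast_nonneg _) _)
  apply mul_le_mul_of_nonneg_right _ (pow_nonneg (pow_nonneg (Nat.cast_nonneg _) _) _)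
  push_cast
  linarith

theorem two5 (h18 : St_X18) (h19 : St_C19) (h20 : St_C20) : Cl 5 2 := by
  obtain ⟨C0, hC0⟩ := cl0 h20 5
  obtain ⟨C1, hC1⟩ := stepX h19 (stage h18 0 5 (by norm_num))
  obtain ⟨C2, hC2⟩ := stepX h19 (stage h18 1 5 (by norm_num))
  refine ⟨C0 + 2 * C1 + 2 * C2 + 3, ?_⟩
  intro q _ hs hq
  have hL := La_pos (q := q) (by omega)
  obtain ⟨c, hc, hg⟩ := hC0 q hs (by omega)
  obtain ⟨c', hc', hg'⟩ := hC1 q hs (by omega) c hc _ hg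
  obtain ⟨c2, hc2, hg2⟩ := hC2 q hs (by omega) c' hc' _ hg'
  refine ⟨c2, hc2, GB_mono hg2 ?_⟩
  have hL' : (1:ℝ) ≤ La q := by exact_mod_cast hL
  refine (r2 hL' (u2 q) (Nat.cast_nonneg _) (Nat.cast_nonneg _) (Nat.cast_nonneg _)).trans ?_
  apply mul_le_mul_of_nonneg_right _ (sq_nonneg _)
  apply mul_le_mul_of_nonneg_right _ (pow_nonneg (Nat.cast_nonneg _) _)
  apply mul_le_mul_of_nonneg_right _ (pow_nonneg (pow_nonneg (Nat.cast_nonneg _) _) _)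
  push_cast
  linarith

theorem succ5 (h18 : St_X18) (h19 : St_C19) {k : ℕ} (hk : 2 ≤ k) (hC : Cl 5 k) :
    Cl 5 (k + 1) := by
  obtain ⟨C0, hC0⟩ := hC
  obtain ⟨C1, hC1⟩ := stepX h19 (stage h18 k 5 (by norm_num))
  refine ⟨C0 + 2 * C1 + 3, ?_⟩
  intro q _ hs hq
  have hL := La_pos (q := q) (by omega)
  obtain ⟨c, hc, hg⟩ := hC0 q hs (by omega)
  obtain ⟨c', hc', hg'⟩ := hC1 q hs (by omega) c hc _ hg
  refine ⟨c', hc', GB_mono hg' ?_⟩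
  have hL' : (1:ℝ) ≤ La q := by exact_mod_cast hL
  refine (r3 hk hL' (u2 q) (Nat.cast_nonneg _) (Nat.cast_nonneg _)).trans ?_
  apply mul_le_mul_of_nonneg_right _ (sq_nonneg _)
  apply mul_le_mul_of_nonneg_right _ (pow_nonneg (Nat.cast_nonneg _) _)
  apply mul_le_mul_of_nonneg_right _ (pow_nonneg (pow_nonneg (Nat.cast_nonneg _) _) _)
  push_cast
  linarith

theorem all5 (h18 : St_X18) (h19 : St_C19) (h20 : St_C20) (k : ℕ) (hk : 2 ≤ k) : Cl 5 k := by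
  induction k, hk using Nat.le_induction with
  | base => exact two5 h18 h19 h20
  | succ k hk ih => exact succ5 h18 h19 hk ih

end Pool.Agent.Y258.X
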